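import Pool.Agent.H844.Amp.Defs

/-!
# The middle codimension of a projective bundle
-/

set_option autoImplicit false

universe u

namespace Pool.Agent.H844.Amp

open Pool.Agent.H844.Mid Finset Var

variable {X Y : Var.{u}}

lemma triv_mul (hX : X.IsCycles) {i j l : ℕ} {a x : X.C} (ha : a ∈ X.ch l) (hx : x ∈ X.triv i)
    (h : i + l = j) : a * x ∈ X.triv j := by
  have := hX.mul_triv ha hx
  rwa [add_comm l i, h] at this

lemma bij_iff (hX : X.IsCycles) {i j l : ℕ} {a : X.C} (ha : a ∈ X.ch l) (hj : i + l = j) :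
    Set.BijOn (fun x => a * x) (X.triv i) (X.triv j) ↔
      (∀ x ∈ X.triv i, a * x = 0 → x = 0) ∧ ∀ y ∈ X.triv j, ∃ x ∈ X.triv i, a * x = y := by
  constructor
  · rintro ⟨-, h2, h3⟩
    refine ⟨fun x hx h => h2 hx (zero_mem _) (by simpa using h), fun y hy => ?_⟩
    obtain ⟨x, hx, hxy⟩ := h3 hy
    exact ⟨x, hx, hxy⟩
  · rintro ⟨h1, h2⟩
    refine ⟨fun x hx => triv_mul hX ha hx hj, fun x hx y hy h => ?_, fun y hy => ?_⟩
    · have h' : a * x = a * y := h
      have := h1 (x - y) (sub_mem hx hy) (by rw [mul_sub, h', sub_self])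
      exact sub_eq_zero.1 this
    · obtain ⟨x, hx, hxy⟩ := h2 y hy
      exact ⟨x, hx, hxy⟩

lemma ht_neg_right (hX : X.IsCycles) {x y : X.C} (hx : x ∈ X.hom0) (hy : y ∈ X.hom0) :
    X.ht x (-y) = -X.ht x y := by
  have h := hX.ht_smul_right (-1) hx hy
  rw [neg_one_smul] at h
  rw [h]; push_cast; ring

lemma ht_sign_right (hX : X.IsCycles) {x y : X.C} (hx : x ∈ X.hom0) (hy : y ∈ X.hom0) (n : ℕ) :
    X.ht x ((-1) ^ n * y) = (-1) ^ n * X.ht x y := by
  rcases neg_one_pow_eq_or X.C n with h | h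
  · rcases Nat.even_or_odd n with hn | hn
    · rw [hn.neg_one_pow, hn.neg_one_pow, one_mul, one_mul]
    · rw [hn.neg_one_pow, hn.neg_one_pow, neg_one_mul, neg_one_mul, ht_neg_right hX hx hy]
  · rcases Nat.even_or_odd n with hn | hn
    · rw [hn.neg_one_pow, hn.neg_one_pow, one_mul, one_mul]
    · rw [hn.neg_one_pow, hn.neg_one_pow, neg_one_mul, neg_one_mul, ht_neg_right hX hx hy]

lemma ht_sum_right (hX : X.IsCycles) {x : X.C} (hx : x ∈ X.hom0) (s : Finset ℕ) (f : ℕ → X.C)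
    (hf : ∀ a, f a ∈ X.hom0) : X.ht x (∑ a ∈ s, f a) = ∑ a ∈ s, X.ht x (f a) := by
  induction s using Finset.induction_on with
  | empty => simpa using hX.ht_zero_right hx
  | insert a s ha ih =>
    rw [sum_insert ha, sum_insert ha, hX.ht_add_right hx (hf a) (sum_mem fun b _ => hf b), ih]

/-- The class `∑ (-1)^b p (c_b) ξ^(k - b)`. -/
def G (k : ℕ) (c : ℕ → X.C) (ξ : Y.C) (p : X.C →+* Y.C) : Y.C :=
  ∑ b ∈ range (k + 1), (-1) ^ b * p (c b) * ξ ^ (k - b)

variable {k : ℕ} {c : ℕ → X.C} {ξ : Y.C} {p : X.C →+* Y.C} {d : ℚ}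

lemma xi_mul_G (h : IsProjBundle X (k + 1) c Y ξ p d) :
    ξ * G k c ξ p = (-1) ^ k * p (c (k + 1)) := by
  have h1 := h.relation
  rw [sum_range_succ] at h1
  have h2 : ξ * G k c ξ p = ∑ b ∈ range (k + 1), (-1) ^ b * p (c b) * ξ ^ (k + 1 - b) := by
    rw [G, mul_sum]
    refine sum_congr rfl fun b hb => ?_
    have : k + 1 - b = (k - b) + 1 := by
      have := mem_range.1 hb
      omega
    rw [this, pow_succ]
    ring
  rw [← h2, Nat.sub_self, pow_zero, mul_one, pow_succ] at h1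
  linear_combination h1

/-- `G` in increasing powers of `ξ`. -/
lemma mul_G_eq (w : X.C) :
    p w * G k c ξ p = ∑ a ∈ range (k + 1), p ((-1) ^ (k - a) * c (k - a) * w) * ξ ^ a := by
  rw [G, mul_sum, ← sum_range_reflect]
  refine sum_congr rfl fun a ha => ?_
  have h1 := mem_range.1 ha
  have h2 : k + 1 - 1 - a = k - a := by omega
  have h3 : k - (k - a) = a := by omega
  rw [h2, h3, map_mul, map_mul, map_pow, map_neg, map_one]
  ring

/-- The coefficients of `ξ z` for `z = ∑ p (x_a) ξ^a`. -/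
def coef (k : ℕ) (c : ℕ → X.C) (x : ℕ → X.C) : ℕ → X.C
  | 0 => (-1) ^ k * c (k + 1) * x k
  | a + 1 => x a - (-1) ^ (k - a) * c (k - a) * x k

lemma xi_mul (h : IsProjBundle X (k + 1) c Y ξ p d) (hc : c 0 = 1) (x : ℕ → X.C) :
    ξ * ∑ a ∈ range (k + 1), p (x a) * ξ ^ a =
      ∑ a ∈ range (k + 1), p (coef k c x a) * ξ ^ a := by
  have h1 : ∑ a ∈ range (k + 1), p (x a) * ξ ^ a =
      p (x k) * G k c ξ p + ∑ a ∈ range k, p (coef k c x (a + 1)) * ξ ^ a := by
    rw [mul_G_eq, sum_range_succ, sum_range_succ (fun a => p ((-1) ^ (k - a) * c (k - a) * x k) *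
      ξ ^ a), Nat.sub_self, pow_zero, one_mul, hc, one_mul, add_right_comm, ← sum_add_distrib]
    congr 1
    refine sum_congr rfl fun a _ => ?_
    rw [← add_mul, ← map_add]
    congr 2
    rw [coef]; ring
  rw [h1, mul_add, sum_range_succ' (fun a => p (coef k c x a) * ξ ^ a), pow_zero, mul_one,
    mul_left_comm, xi_mul_G h, mul_sum, add_comm]
  congr 1
  · refine sum_congr rfl fun a _ => ?_
    rw [pow_succ]; ring
  · rw [coef, map_mul, map_mul, map_pow, map_neg, map_one]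
    ring

lemma mem_pow (hY : Y.IsCycles) (h : IsProjBundle X (k + 1) c Y ξ p d) (hξ : ξ ∈ Y.ch 1) {a b j : ℕ}
    {x : X.C} (hx : x ∈ X.triv b) (hj : b + a = j) : p x * ξ ^ a ∈ Y.triv j := by
  rw [mul_comm]
  exact triv_mul hY (hY.pow_mem hξ a) ⟨h.map_ch hx.1, h.map_hom0 hx.2⟩ hj

lemma sign_mem {j n : ℕ} {x : Y.C} (hx : x ∈ Y.triv j) : (-1) ^ n * x ∈ Y.triv j := by
  rcases neg_one_pow_eq_or Y.C n with h | h
  · rwa [h, one_mul]
  · rw [h, neg_one_mul]; exact neg_mem hx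

lemma mul_G_mem (hX : X.IsCycles) (hY : Y.IsCycles) (h : IsProjBundle X (k + 1) c Y ξ p d)
    (hc : ∀ a, c a ∈ X.ch a) (hξ : ξ ∈ Y.ch 1) {i : ℕ} {w : X.C} (hw : w ∈ X.triv i) :
    p w * G k c ξ p ∈ Y.triv (i + k) := by
  rw [mul_G_eq]
  refine sum_mem fun a ha => ?_
  have h1 := mem_range.1 ha
  refine mem_pow hY h hξ (b := i + (k - a)) ?_ (by omega)
  rw [mul_assoc]
  exact sign_mem (triv_mul hX (hc _) hw rfl)

/-- The kernel of `ξ`. -/
lemma kernel (h : IsProjBundle X (k + 1) c Y ξ p d) (hc : c 0 = 1) {x : ℕ → X.C}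
    (hx : ξ * ∑ a ∈ range (k + 1), p (x a) * ξ ^ a = 0) :
    c (k + 1) * x k = 0 ∧ ∑ a ∈ range (k + 1), p (x a) * ξ ^ a = p (x k) * G k c ξ p := by
  rw [xi_mul h hc] at hx
  have h1 := h.unique _ hx
  have h2 : c (k + 1) * x k = 0 := by
    have h3 := h1 0 (by omega)
    rw [coef, mul_assoc] at h3
    rcases neg_one_pow_eq_or X.C k with h4 | h4
    · rwa [h4, one_mul] at h3
    · rwa [h4, neg_one_mul, neg_eq_zero] at h3
  refine ⟨h2, ?_⟩
  rw [mul_G_eq]
  refine sum_congr rfl fun a ha => ?_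
  have h5 := mem_range.1 ha
  by_cases h6 : a = k
  · subst h6
    rw [Nat.sub_self, pow_zero, one_mul, hc, one_mul]
  · have h7 := h1 (a + 1) (by omega)
    rw [coef, sub_eq_zero] at h7
    rw [← h7]

theorem bundle_q1 (hX : X.IsCycles) (hY : Y.IsCycles) (h : IsProjBundle X (k + 1) c Y ξ p d)
    (hc0 : c 0 = 1) (hc : ∀ a, c a ∈ X.ch a) (hξ : ξ ∈ Y.ch 1) {i : ℕ} :
    Y.Middle1 (i + k) ξ ↔ BundleQ1 X i (k + 1) c := by
  rw [Middle1, BundleQ1, bij_iff hY hξ rfl, bij_iff hX (hc (k + 1)) rfl]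
  constructor
  · rintro ⟨inj, sur⟩
    refine ⟨fun w hw h0 => ?_, fun v hv => ?_⟩
    · have h1 : p w * G k c ξ p = 0 := by
        refine inj _ (mul_G_mem hX hY h hc hξ hw) ?_
        rw [mul_left_comm, xi_mul_G h, mul_left_comm, ← map_mul, mul_comm w, h0, map_zero,
          mul_zero]
      rw [mul_G_eq] at h1
      have h2 := h.unique _ h1 k (by omega)
      rwa [Nat.sub_self, pow_zero, one_mul, hc0, one_mul] at h2
    · obtain ⟨z, hz, hzv⟩ := sur (p v) ⟨h.map_ch (by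
        have := hv.1
        rwa [show i + (k + 1) = i + k + 1 by omega] at this), h.map_hom0 hv.2⟩
      obtain ⟨x, hx, -, rfl⟩ := h.exists_eq hz
      rw [xi_mul h hc0] at hzv
      have h1 : ∑ a ∈ range (k + 1), p (coef k c x a - if a = 0 then v else 0) * ξ ^ a = 0 := by
        have h2 : ∑ a ∈ range (k + 1), p (if a = 0 then v else 0) * ξ ^ a = p v := by
          rw [sum_eq_single 0]
          · simp
          · intro b _ hb
            simp [hb]
          · simp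
        simp only [map_sub, sub_mul, sum_sub_distrib]
        rw [hzv, h2, sub_self]
      have h2 := h.unique _ h1 0 (by omega)
      rw [if_pos rfl, coef, sub_eq_zero] at h2
      refine ⟨(-1) ^ k * x k, sign_mem (hx k i rfl), ?_⟩
      rw [← h2]; ring
  · rintro ⟨inj, sur⟩
    refine ⟨fun z hz h0 => ?_, fun t ht => ?_⟩
    · obtain ⟨x, hx, -, rfl⟩ := h.exists_eq hz
      obtain ⟨h1, h2⟩ := kernel h hc0 h0
      rw [h2, inj _ (hx k i rfl) h1, map_zero, zero_mul]
    · obtain ⟨x, hx, -, rfl⟩ := h.exists_eq ht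
      obtain ⟨w, hw, hw'⟩ := sur (x 0) (hx 0 (i + (k + 1)) (by omega))
      refine ⟨(-1) ^ k * (p w * G k c ξ p) + ∑ a ∈ range k, p (x (a + 1)) * ξ ^ a,
        add_mem (sign_mem (mul_G_mem hX hY h hc hξ hw)) (sum_mem fun a ha => ?_), ?_⟩
      · have h1 := mem_range.1 ha
        exact mem_pow hY h hξ (hx (a + 1) (i + k - a) (by omega)) (by omega)
      · rw [sum_range_succ' (fun a => p (x a) * ξ ^ a), pow_zero, mul_one, mul_add, mul_sum,
          add_comm]
        congr 1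
        · refine sum_congr rfl fun a _ => ?_
          rw [pow_succ]; ring
        · have h1 : ξ * ((-1) ^ k * (p w * G k c ξ p)) =
              (-1) ^ k * (-1) ^ k * (p (c (k + 1)) * p w) := by
            have := xi_mul_G h
            linear_combination ((-1) ^ k * p w) * this
          rw [h1, ← mul_pow, neg_one_mul, neg_neg, one_pow, one_mul, ← map_mul, hw']

/-- The height of the class attached to `w`. -/
lemma ht_G (hX : X.IsCycles) (hY : Y.IsCycles) (h : IsProjBundle X (k + 1) c Y ξ p d)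
    (hc0 : c 0 = 1) {w : X.C} (hw : w ∈ X.hom0) (h0 : c (k + 1) * w = 0) :
    Y.ht (p w * G k c ξ p) (p w * G k c ξ p) = (-1) ^ k * (d * X.ht w (c k * w)) := by
  set g := p w * G k c ξ p with hg
  have hpw : p w ∈ Y.hom0 := h.map_hom0 hw
  have hgm : g ∈ Y.hom0 := by rw [hg, mul_comm]; exact hY.mul_hom0 hpw
  have hξg : ξ * g = 0 := by
    rw [hg, mul_left_comm, xi_mul_G h, mul_left_comm, ← map_mul, mul_comm w, h0, map_zero,
      mul_zero]
  have h1 : G k c ξ p * g = (-1) ^ k * (p (c k) * g) := by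
    rw [G, sum_mul, sum_range_succ, Nat.sub_self, pow_zero, mul_one, sum_eq_zero, zero_add,
      mul_assoc]
    intro b hb
    have h2 := mem_range.1 hb
    have h3 : k - b = (k - b - 1) + 1 := by omega
    rw [h3, pow_succ, mul_assoc, mul_assoc, mul_assoc, hξg, mul_zero, mul_zero, mul_zero]
  have hckw : p (c k) * p w ∈ Y.hom0 := hY.mul_hom0 hpw
  have hck : c k * w ∈ X.hom0 := hX.mul_hom0 hw
  have h2 : Y.ht g g = Y.ht (G k c ξ p * g) (p w) := by
    rw [hY.proj _ hgm hpw, mul_comm _ (p w)]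
  have h3 : Y.ht ((-1) ^ k * (p (c k) * g)) (p w) = (-1) ^ k * Y.ht (p (c k * w)) g := by
    rw [hY.symm (hY.mul_hom0 (hY.mul_hom0 hgm)) hpw, ht_sign_right hY hpw (hY.mul_hom0 hgm),
      ← hY.proj _ hpw hgm, map_mul]
  have h4 : Y.ht (p (c k * w)) g = d * X.ht (c k * w) w := by
    rw [hg, mul_G_eq, ht_sum_right hY (h.map_hom0 hck) _ _ (fun a => by
      rw [mul_comm]; exact hY.mul_hom0 (h.map_hom0 (hX.mul_hom0 hw))), sum_range_succ,
      sum_eq_zero, zero_add, Nat.sub_self, pow_zero, one_mul, hc0, one_mul,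
      h.ht_top rfl hck hw]
    intro a ha
    have := mem_range.1 ha
    exact h.ht_low (by omega) hck (hX.mul_hom0 hw)
  rw [h2, h1, h3, h4, hX.symm hck hw]

theorem bundle_q2 (hX : X.IsCycles) (hY : Y.IsCycles) (h : IsProjBundle X (k + 1) c Y ξ p d)
    (hc0 : c 0 = 1) (hc : ∀ a, c a ∈ X.ch a) (hξ : ξ ∈ Y.ch 1) {i : ℕ} :
    Y.Middle2 (i + k) ξ ↔ BundleQ2 X i k c := by
  have sgn : ∀ r : ℝ, (-1 : ℝ) ^ (i + k) * ((-1) ^ k * (d * r)) = d * ((-1) ^ i * r) := by
    intro r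
    rw [pow_add, mul_assoc, ← mul_assoc ((-1 : ℝ) ^ k), ← mul_pow]
    norm_num
    ring
  have hd : (0 : ℝ) < d := by exact_mod_cast h.pos
  constructor
  · intro hq w hw hw0 hprim
    have h1 := hq (p w * G k c ξ p) (mul_G_mem hX hY h hc hξ hw) (fun h1 => hw0 (by
        rw [mul_G_eq] at h1
        have h2 := h.unique _ h1 k (by omega)
        rwa [Nat.sub_self, pow_zero, one_mul, hc0, one_mul] at h2)) (by
      rw [mul_left_comm, xi_mul_G h, mul_left_comm, ← map_mul, mul_comm w, hprim, map_zero,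
        mul_zero])
    rw [ht_G hX hY h hc0 hw.2 hprim, sgn] at h1
    exact (pos_iff_pos_of_mul_pos h1).1 hd
  · intro hq z hz hz0 hprim
    obtain ⟨x, hx, -, rfl⟩ := h.exists_eq hz
    obtain ⟨h1, h2⟩ := kernel h hc0 hprim
    rw [h2] at hz0 ⊢
    have hxk : x k ∈ X.triv i := hx k i rfl
    rw [ht_G hX hY h hc0 hxk.2 h1, sgn]
    exact mul_pos hd (hq _ hxk (fun h3 => hz0 (by rw [h3, map_zero, zero_mul])) h1)

end Pool.Agent.H844.Amp
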