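import Pool.Agent.H844.Mid.Main

/-!
# Ample vector bundles and their projective bundles
-/

set_option autoImplicit false

universe u

namespace Pool.Agent.H844.Amp

open Pool.Agent.H844.Mid Finset

/-- The Chern classes of the direct sum of line bundles with the first Chern classes
`L_0, …, L_(e-1)` (Whitney's formula `c_(a+1)(E ⊕ L_0) = c_(a+1)(E) + L_0 c_a(E)`). -/
def split {C : Type u} [CommRing C] : ∀ {e : ℕ}, (Fin e → C) → ℕ → C
  | 0, _, 0 => 1
  | 0, _, _ + 1 => 0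
  | _ + 1, _, 0 => 1
  | _ + 1, L, a + 1 => split (Fin.tail L) (a + 1) + L 0 * split (Fin.tail L) a

/-- `Y` is the projective bundle of a vector bundle `E` of rank `e` on `X`, `c_a = t^a c_a(E)` with the
Chern classes `c_a(E)` and a positive rational number `t`, `ξ` is the product of `t` and the first
Chern class of the tautological quotient line bundle on `Y`, and `d = t^(e - 1)`: there is a
homomorphism `p` of the Chow rings (the pull-back), which respects the codimension and the cycles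
homologous to zero, with `∑ (-1)^a p (c_a) ξ^(e - a) = 0` (Grothendieck's relation); the classes
`∑_{a < e} p (x_a) ξ^a` are different for different `x`; each class in `Ch^j(Y)^0` is of this form with
`x_a` in `Ch^(j - a)(X)^0`; and for the height pairing `(p x, p y ξ^a)` is `0` for `a < e - 1` and
`d (x, y)` for `a = e - 1` (projection formula). -/
structure IsProjBundle (X : Var.{u}) (e : ℕ) (c : ℕ → X.C) (Y : Var.{u}) (ξ : Y.C)
    (p : X.C →+* Y.C) (d : ℚ) : Prop where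
  pos : 0 < d
  dim_eq : Y.dim + 1 = X.dim + e
  map_ch : ∀ {j : ℕ} {x : X.C}, x ∈ X.ch j → p x ∈ Y.ch j
  map_hom0 : ∀ {x : X.C}, x ∈ X.hom0 → p x ∈ Y.hom0
  relation : ∑ a ∈ range (e + 1), (-1) ^ a * p (c a) * ξ ^ (e - a) = 0
  unique : ∀ x : ℕ → X.C, ∑ a ∈ range e, p (x a) * ξ ^ a = 0 → ∀ a < e, x a = 0
  exists_eq : ∀ {j : ℕ} {z : Y.C}, z ∈ Y.triv j → ∃ x : ℕ → X.C,
    (∀ a b : ℕ, b + a = j → x a ∈ X.triv b) ∧ (∀ a, j < a → x a = 0) ∧
      z = ∑ a ∈ range e, p (x a) * ξ ^ a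
  ht_low : ∀ {a : ℕ} {x y : X.C}, a + 1 < e → x ∈ X.hom0 → y ∈ X.hom0 →
    Y.ht (p x) (p y * ξ ^ a) = 0
  ht_top : ∀ {a : ℕ} {x y : X.C}, a + 1 = e → x ∈ X.hom0 → y ∈ X.hom0 →
    Y.ht (p x) (p y * ξ ^ a) = d * X.ht x y

/-- `𝒱` is a class of smooth projective varieties, and `vb X e` is the set of the sequences
`t^a c_a(E)`, where `c_a(E)` are the Chern classes of an ample vector bundle `E` of rank `e` on `X` and
`t` is a positive rational number: the basic facts hold (`IsCycles`); positive rational multiples of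
ample classes are ample (the ample classes are considered with rational coefficients); direct sums of
ample line bundles are ample (for rational classes `L_q = t M_q` the Chern classes of the sum are
`t^a c_a(E)`, where `E` is the sum of the line bundles with the classes `M_q`); the class is closed
under the projective bundles of ample vector bundles, whose tautological class is ample. -/
structure IsClass (𝒱 : Set Var.{u}) (vb : ∀ X : Var.{u}, ℕ → Set (ℕ → X.C)) : Prop where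
  isCycles : ∀ X ∈ 𝒱, X.IsCycles
  smul_ample : ∀ X ∈ 𝒱, ∀ L ∈ X.ample, ∀ t : ℚ, 0 < t → t • L ∈ X.ample
  chern_zero : ∀ X ∈ 𝒱, ∀ e, ∀ c ∈ vb X e, c 0 = 1
  chern_mem : ∀ X ∈ 𝒱, ∀ e, ∀ c ∈ vb X e, ∀ a, c a ∈ X.ch a
  sum_mem : ∀ X ∈ 𝒱, ∀ (e : ℕ) (L : Fin e → X.C), (∀ q, L q ∈ X.ample) → split L ∈ vb X e
  bundle : ∀ X ∈ 𝒱, ∀ e, ∀ c ∈ vb X (e + 1), ∃ Y ∈ 𝒱, ∃ ξ ∈ Y.ample, ∃ p d,
    IsProjBundle X (e + 1) c Y ξ p d

/-- Question 1 with the Chern class `c e` of a bundle of rank `e = dim X + 1 - 2 i` in place of the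
power `L ^ e`. -/
def BundleQ1 (X : Var.{u}) (i e : ℕ) (c : ℕ → X.C) : Prop :=
  Set.BijOn (fun x => c e * x) (X.triv i) (X.triv (i + e))

/-- Question 2 with the Chern classes `c k` and `c (k + 1)` of a bundle of rank
`k + 1 = dim X + 2 - 2 i` in place of the powers `L ^ k` and `L ^ (k + 1)`. -/
def BundleQ2 (X : Var.{u}) (i k : ℕ) (c : ℕ → X.C) : Prop :=
  ∀ x ∈ X.triv i, x ≠ 0 → c (k + 1) * x = 0 → 0 < (-1) ^ i * X.ht x (c k * x)

/-- The mixed form of Question 1. -/
def MixedQ1 (X : Var.{u}) (i k : ℕ) : Prop :=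
  ∀ L : Fin k → X.C, (∀ q, L q ∈ X.ample) →
    Set.BijOn (fun x => (∏ q, L q) * x) (X.triv i) (X.triv (i + k))

/-- The mixed form of Question 2. -/
def MixedQ2 (X : Var.{u}) (i k : ℕ) : Prop :=
  ∀ (M : X.C) (L : Fin k → X.C), M ∈ X.ample → (∀ q, L q ∈ X.ample) → ∀ x ∈ X.triv i, x ≠ 0 →
    M * (∏ q, L q) * x = 0 → 0 < (-1) ^ i * X.ht x ((∏ q, L q) * x)

/-- The mixed form of Question 2 with `≥ 0` in place of `> 0`. -/
def WeakMixedQ2 (X : Var.{u}) (i k : ℕ) : Prop :=
  ∀ (M : X.C) (L : Fin k → X.C), M ∈ X.ample → (∀ q, L q ∈ X.ample) → ∀ x ∈ X.triv i,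
    M * (∏ q, L q) * x = 0 → 0 ≤ (-1) ^ i * X.ht x ((∏ q, L q) * x)

end Pool.Agent.H844.Amp
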