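import Pool.Agent.H844.Amp.Bundle

/-!
# Beilinson's questions for ample vector bundles
-/

set_option autoImplicit false

universe u

namespace Pool.Agent.H844.Amp

open Pool.Agent.H844.Mid Finset Var

section Split

variable {C : Type u} [CommRing C]

lemma split_zero {e : ℕ} (L : Fin e → C) : split L 0 = 1 := by cases e <;> rfl

lemma split_above {e : ℕ} (L : Fin e → C) {a : ℕ} (ha : e < a) : split L a = 0 := by
  induction e generalizing a with
  | zero =>
    obtain ⟨a, rfl⟩ : ∃ b, a = b + 1 := ⟨a - 1, by omega⟩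
    rfl
  | succ e ih =>
    obtain ⟨a, rfl⟩ : ∃ b, a = b + 1 := ⟨a - 1, by omega⟩
    rw [split, ih _ (by omega), ih _ (by omega), mul_zero, add_zero]

lemma split_top {e : ℕ} (L : Fin e → C) : split L e = ∏ q, L q := by
  induction e with
  | zero => rw [split_zero]; rfl
  | succ e ih =>
    rw [split, split_above _ (Nat.lt_succ_self e), zero_add, ih, Fin.prod_univ_succ]
    rfl

lemma split_const (x : C) (e a : ℕ) : split (fun _ : Fin e => x) a = (e.choose a : C) * x ^ a := by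
  induction e generalizing a with
  | zero =>
    cases a with
    | zero => simp [split]
    | succ a => simp [split]
  | succ e ih =>
    cases a with
    | zero => simp [split]
    | succ a =>
      have h : Fin.tail (fun _ : Fin (e + 1) => x) = fun _ => x := rfl
      rw [split, h, ih, ih, Nat.choose_succ_succ]
      push_cast
      ring

lemma split_cons [Algebra ℚ C] {k : ℕ} (M : C) (L : Fin k → C) :
    ∃ b : C, ∀ t : ℚ, split (Fin.cons (α := fun _ => C) (t • M) L) k = ∏ q, L q + t • b := by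
  cases k with
  | zero =>
    refine ⟨0, fun t => ?_⟩
    rw [split_zero, smul_zero, add_zero]; rfl
  | succ k =>
    refine ⟨M * split L k, fun t => ?_⟩
    rw [split, Fin.tail_cons, Fin.cons_zero, split_top, smul_mul_assoc]

end Split

lemma nonneg_of {A B : ℝ} (h : ∀ t : ℚ, 0 < t → 0 < A + t * B) : 0 ≤ A := by
  by_contra hA
  push Not at hA
  by_cases hB : B ≤ 0
  · have := h 1 one_pos
    push_cast at this
    linarith
  · push Not at hB
    obtain ⟨t, ht1, ht2⟩ := exists_rat_btwn (show (0 : ℝ) < -A / B from div_pos (by linarith) hB)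
    have h1 := h t (by exact_mod_cast ht1)
    rw [lt_div_iff₀ hB] at ht2
    linarith

lemma eq_zero_of {A B : ℝ} (h : ∀ t : ℚ, 0 ≤ A + t * B) : B = 0 := by
  by_contra hB
  rcases lt_or_gt_of_ne hB with hB | hB
  · obtain ⟨t, ht⟩ := exists_rat_gt (-A / B)
    have h1 := h t
    rw [div_lt_iff_of_neg hB] at ht
    linarith
  · obtain ⟨t, ht⟩ := exists_rat_lt (-A / B)
    have h1 := h t
    rw [lt_div_iff₀ hB] at ht
    linarith

lemma nondeg {X : Var.{u}} (hX : X.IsCycles) {L : X.C} (hL : L ∈ X.ch 1)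
    (h1 : ∀ i k, X.dim + 1 = 2 * i + k → X.Q1 i k L)
    (h2 : ∀ i k, X.dim + 1 = 2 * i + k → X.Q2 i k L) :
    ∀ i k, X.dim + 1 = 2 * i + k → ∀ u ∈ X.triv i,
      (∀ x ∈ X.triv i, X.ht x (L ^ k * u) = 0) → u = 0 := by
  intro i
  induction i with
  | zero => intro k _ u hu _; exact hX.triv_zero hu
  | succ i ih =>
    intro k hk u hu hort
    obtain ⟨-, sur⟩ := (q1_iff hX hL).1 (h1 i (k + 2) (by omega))
    obtain ⟨u', hu', he⟩ := sur (L ^ (k + 1) * u) (hX.powtriv hL (by omega) hu)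
    have hLu' : L * u' ∈ X.triv (i + 1) := triv_mul hX hL hu' rfl
    have hu0 : u - L * u' ∈ X.triv (i + 1) := sub_mem hu hLu'
    have hp : L ^ (k + 1) * (u - L * u') = 0 := by
      rw [mul_sub, ← mul_assoc, ← pow_succ, he, sub_self]
    have h3 : X.ht (u - L * u') (L ^ k * (u - L * u')) = 0 := by
      have e1 : L ^ k * (u - L * u') = L ^ k * u - L ^ (k + 1) * u' := by ring
      rw [e1, hX.ht_sub_right hu0.2 (hX.mul_hom0 hu.2) (hX.mul_hom0 hu'.2), hort _ hu0, zero_sub,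
        ← hX.proj _ hu0.2 hu'.2, hp, hX.ht_zero_left hu'.2, neg_zero]
    have h4 : u - L * u' = 0 := by
      by_contra h5
      have h6 := h2 (i + 1) k hk _ hu0 h5 hp
      rw [h3, mul_zero] at h6
      exact lt_irrefl _ h6
    have h5 : u = L * u' := sub_eq_zero.1 h4
    have h6 : u' = 0 := by
      refine ih (k + 2) (by omega) u' hu' fun y hy => ?_
      have h7 := hort (L * y) (triv_mul hX hL hy rfl)
      rw [hX.proj _ hy.2 (hX.mul_hom0 hu.2), h5] at h7
      rw [← h7]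
      congr 1
      ring
    rw [h5, h6, mul_zero]

variable {𝒱 : Set Var.{u}} {vb : ∀ X : Var.{u}, ℕ → Set (ℕ → X.C)}

/-- Question 1 for all varieties, ample classes and codimensions. -/
def AllQ1 (𝒱 : Set Var.{u}) : Prop :=
  ∀ X ∈ 𝒱, ∀ L ∈ X.ample, ∀ i k, X.dim + 1 = 2 * i + k → X.Q1 i k L

/-- Question 2 for all varieties, ample classes and codimensions. -/
def AllQ2 (𝒱 : Set Var.{u}) : Prop :=
  ∀ X ∈ 𝒱, ∀ L ∈ X.ample, ∀ i k, X.dim + 1 = 2 * i + k → X.Q2 i k L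

lemma bundle_of_q1 (h : IsClass 𝒱 vb) (h1 : AllQ1 𝒱) {X : Var.{u}} (hX : X ∈ 𝒱) {i e : ℕ}
    {c : ℕ → X.C} (hc : c ∈ vb X e) (hi : X.dim + 1 = 2 * i + e) : BundleQ1 X i e c := by
  have hX' := h.isCycles X hX
  cases e with
  | zero =>
    rw [BundleQ1, bij_iff hX' (h.chern_mem X hX 0 c hc 0) rfl, h.chern_zero X hX 0 c hc]
    exact ⟨fun x _ h0 => by simpa using h0, fun y hy => ⟨y, hy, one_mul _⟩⟩
  | succ k =>
    obtain ⟨Y, hY, ξ, hξ, p, d, hp⟩ := h.bundle X hX k c hc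
    have hY' := h.isCycles Y hY
    have hd := hp.dim_eq
    refine (bundle_q1 hX' hY' hp (h.chern_zero X hX _ c hc) (h.chern_mem X hX _ c hc)
      (hY'.ample_le hξ)).1 ?_
    exact q1_mid.1 (h1 Y hY ξ hξ (i + k) 1 (by omega))

lemma bundle_of_q2 (h : IsClass 𝒱 vb) (h2 : AllQ2 𝒱) {X : Var.{u}} (hX : X ∈ 𝒱) {i k : ℕ}
    {c : ℕ → X.C} (hc : c ∈ vb X (k + 1)) (hi : X.dim + 1 = 2 * i + k) : BundleQ2 X i k c := by
  have hX' := h.isCycles X hX
  obtain ⟨Y, hY, ξ, hξ, p, d, hp⟩ := h.bundle X hX k c hc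
  have hY' := h.isCycles Y hY
  have hd := hp.dim_eq
  refine (bundle_q2 hX' hY' hp (h.chern_zero X hX _ c hc) (h.chern_mem X hX _ c hc)
    (hY'.ample_le hξ)).1 ?_
  exact q2_mid.1 (h2 Y hY ξ hξ (i + k) 0 (by omega))

lemma mixed_of_bundle (h : IsClass 𝒱 vb)
    (h1 : ∀ X ∈ 𝒱, ∀ i e, ∀ c ∈ vb X e, X.dim + 1 = 2 * i + e → BundleQ1 X i e c)
    {X : Var.{u}} (hX : X ∈ 𝒱) {i k : ℕ} (hi : X.dim + 1 = 2 * i + k) : MixedQ1 X i k := by
  intro L hL
  have h2 := h1 X hX i k _ (h.sum_mem X hX k L hL) hi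
  rwa [BundleQ1, split_top] at h2

lemma q1_of_mixed (h1 : ∀ X ∈ 𝒱, ∀ i k, X.dim + 1 = 2 * i + k → MixedQ1 X i k) : AllQ1 𝒱 := by
  intro X hX L hL i k hi
  have h2 := h1 X hX i k hi (fun _ => L) fun _ => hL
  rwa [prod_const, card_univ, Fintype.card_fin] at h2

theorem q1_tfae (h : IsClass 𝒱 vb) : List.TFAE [AllQ1 𝒱,
    ∀ X ∈ 𝒱, ∀ i k, X.dim + 1 = 2 * i + k → MixedQ1 X i k,
    ∀ X ∈ 𝒱, ∀ i e, ∀ c ∈ vb X e, X.dim + 1 = 2 * i + e → BundleQ1 X i e c] := by
  tfae_have 1 → 3 := fun h1 X hX i e c hc hi => bundle_of_q1 h h1 hX hc hi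
  tfae_have 3 → 2 := fun h1 X hX i k hi => mixed_of_bundle h h1 hX hi
  tfae_have 2 → 1 := q1_of_mixed
  tfae_finish

theorem q2_iff (h : IsClass 𝒱 vb) : AllQ2 𝒱 ↔
    ∀ X ∈ 𝒱, ∀ i k, ∀ c ∈ vb X (k + 1), X.dim + 1 = 2 * i + k → BundleQ2 X i k c := by
  constructor
  · exact fun h2 X hX i k c hc hi => bundle_of_q2 h h2 hX hc hi
  · intro h2 X hX L hL i k hi x hx hx0 hprim
    have hX' := h.isCycles X hX
    have h3 := h2 X hX i k _ (h.sum_mem X hX (k + 1) (fun _ => L) fun _ => hL) hi x hx hx0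
    rw [split_const, split_const, Nat.choose_self, Nat.choose_succ_self_right, Nat.cast_one,
      one_mul] at h3
    have h4 := h3 hprim
    have e1 : ((k + 1 : ℕ) : X.C) * L ^ k * x = ((k + 1 : ℕ) : ℚ) • (L ^ k * x) := by
      rw [Algebra.smul_def, map_natCast, mul_assoc]
    rw [e1, hX'.ht_smul_right _ hx.2 (hX'.mul_hom0 hx.2)] at h4
    have e2 : (-1 : ℝ) ^ i * ((((k + 1 : ℕ) : ℚ) : ℝ) * X.ht x (L ^ k * x)) =
        (k + 1) * ((-1) ^ i * X.ht x (L ^ k * x)) := by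
      push_cast; ring
    rw [e2] at h4
    exact (pos_iff_pos_of_mul_pos h4).1 (by positivity)

/-- Question 2 implies its mixed form with `≥`. -/
theorem weak_mixed_q2 (h : IsClass 𝒱 vb) (h2 : AllQ2 𝒱) {X : Var.{u}} (hX : X ∈ 𝒱)
    {i k : ℕ} (hi : X.dim + 1 = 2 * i + k) : WeakMixedQ2 X i k := by
  intro M L hM hL w hw hw0
  have hX' := h.isCycles X hX
  by_cases hww : w = 0
  · rw [hww, mul_zero, hX'.ht_zero_left (zero_mem _), mul_zero]
  obtain ⟨b, hb⟩ := split_cons M L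
  refine nonneg_of (B := (-1) ^ i * X.ht w (b * w)) fun t ht => ?_
  have hc := h.sum_mem X hX (k + 1) (Fin.cons (α := fun _ => X.C) (t • M) L) (by
    intro q
    refine Fin.cases ?_ (fun q => ?_) q
    · exact h.smul_ample X hX M hM t ht
    · simpa using hL q)
  have h3 := ((q2_iff h).1 h2) X hX i k _ hc hi w hw hww (by
    rw [split_top, Fin.prod_univ_succ, Fin.cons_zero]
    simp only [Fin.cons_succ]
    rw [smul_mul_assoc, smul_mul_assoc, hw0, smul_zero])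
  rw [hb t, add_mul, smul_mul_assoc, hX'.ht_add_right hw.2 (hX'.mul_hom0 hw.2)
    (Submodule.smul_mem _ _ (hX'.mul_hom0 hw.2)), hX'.ht_smul_right _ hw.2
    (hX'.mul_hom0 hw.2)] at h3
  rw [← sub_pos] at h3 ⊢
  linear_combination h3

/-- Question 2 implies its mixed form, given Question 1. -/
theorem mixed_q2 (h : IsClass 𝒱 vb) (h1 : AllQ1 𝒱) (h2 : AllQ2 𝒱) {X : Var.{u}} (hX : X ∈ 𝒱)
    {i k : ℕ} (hi : X.dim + 1 = 2 * i + k) : MixedQ2 X i k := by
  intro M L hM hL x hx hx0 hprim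
  have hX' := h.isCycles X hX
  have hM1 := hX'.ample_le hM
  have hmix : ∀ {i k : ℕ}, X.dim + 1 = 2 * i + k → MixedQ1 X i k := fun hi =>
    mixed_of_bundle h (fun _ hY _ _ _ hc hi => bundle_of_q1 h h1 hY hc hi) hX hi
  set P : X.C := ∏ q, L q with hP
  have hPch : P ∈ X.ch k := by
    rw [hP, ← split_top]
    exact h.chern_mem X hX _ _ (h.sum_mem X hX k L hL) k
  -- the form is nonnegative
  have psd : ∀ w ∈ X.triv i, M * P * w = 0 → 0 ≤ (-1) ^ i * X.ht w (P * w) :=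
    weak_mixed_q2 h h2 hX hi M L hM hL
  by_contra hneg
  have hzero : X.ht x (P * x) = 0 := by
    have h3 := psd x hx hprim
    push Not at hneg
    have h4 : (-1 : ℝ) ^ i * X.ht x (P * x) = 0 := le_antisymm hneg h3
    exact (mul_eq_zero.1 h4).resolve_left (pow_ne_zero _ (by norm_num))
  have sym : ∀ {v w : X.C}, v ∈ X.hom0 → w ∈ X.hom0 → X.ht v (P * w) = X.ht w (P * v) := by
    intro v w hv hw
    rw [← hX'.proj _ hv hw, hX'.symm (hX'.mul_hom0 hv) hw]
  have hN : ∀ w ∈ X.triv i, M * P * w = 0 → X.ht w (P * x) = 0 := by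
    intro w hw hw0
    have h3 : ∀ t : ℚ, 0 ≤ (-1) ^ i * X.ht w (P * w) + t * ((-1) ^ i * (2 * X.ht w (P * x))) := by
      intro t
      have htx : t • x ∈ X.triv i := Submodule.smul_mem _ _ hx
      have h4 := psd (w + t • x) (add_mem hw htx)
        (by rw [mul_add, mul_smul_comm, hw0, hprim, smul_zero, add_zero])
      rw [mul_add, mul_smul_comm, hX'.ht_add hw.2 htx.2 (add_mem (hX'.mul_hom0 hw.2)
        (Submodule.smul_mem _ _ (hX'.mul_hom0 hx.2))),
        hX'.ht_add_right hw.2 (hX'.mul_hom0 hw.2) (Submodule.smul_mem _ _ (hX'.mul_hom0 hx.2)),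
        hX'.ht_add_right htx.2 (hX'.mul_hom0 hw.2) (Submodule.smul_mem _ _ (hX'.mul_hom0 hx.2)),
        hX'.ht_smul_right _ hw.2 (hX'.mul_hom0 hx.2), hX'.ht_smul _ hx.2 (hX'.mul_hom0 hw.2),
        hX'.ht_smul _ hx.2 (Submodule.smul_mem _ _ (hX'.mul_hom0 hx.2)),
        hX'.ht_smul_right _ hx.2 (hX'.mul_hom0 hx.2), hzero, sym hx.2 hw.2] at h4
      refine h4.trans_eq ?_
      ring
    have h5 := eq_zero_of h3
    have h6 : 2 * X.ht w (P * x) = 0 :=
      (mul_eq_zero.1 h5).resolve_left (pow_ne_zero _ (by norm_num))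
    linarith
  have hall : ∀ y ∈ X.triv i, X.ht y (P * x) = 0 := by
    intro y hy
    cases i with
    | zero => exact absurd (hX'.triv_zero hx) hx0
    | succ i =>
      have h3 := hmix (i := i) (k := k + 2) (by omega)
        (Fin.cons (α := fun _ => X.C) M (Fin.cons (α := fun _ => X.C) M L)) (by
          intro q
          refine Fin.cases hM (fun q => ?_) q
          rw [Fin.cons_succ]
          exact Fin.cases hM (fun q => by simpa using hL q) q)
      have hprod : ∏ q, (Fin.cons (α := fun _ => X.C) M (Fin.cons (α := fun _ => X.C) M L) :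
          Fin (k + 2) → X.C) q = M * (M * P) := by
        rw [Fin.prod_univ_succ, Fin.cons_zero]
        simp only [Fin.cons_succ]
        rw [Fin.prod_univ_succ, Fin.cons_zero]
        simp only [Fin.cons_succ]
        rw [← hP]
      rw [hprod] at h3
      have hch : M * (M * P) ∈ X.ch (k + 2) := by
        have := hX'.mul_mem hM1 (hX'.mul_mem hM1 hPch)
        rwa [show 1 + (1 + k) = k + 2 by omega] at this
      obtain ⟨-, sur⟩ := (bij_iff hX' hch rfl).1 h3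
      have hMPch : M * P ∈ X.ch (k + 1) := by
        have := hX'.mul_mem hM1 hPch
        rwa [add_comm] at this
      obtain ⟨v, hv, hv'⟩ := sur (M * P * y) (triv_mul hX' hMPch hy (by omega))
      have hMv : M * v ∈ X.triv (i + 1) := triv_mul hX' hM1 hv rfl
      have h4 := hN (y - M * v) (sub_mem hy hMv) (by
        rw [mul_sub, ← hv']; ring)
      have h5 : X.ht (M * v) (P * x) = 0 := by
        rw [hX'.proj _ hv.2 (hX'.mul_hom0 hx.2), ← mul_assoc, hprim, hX'.ht_zero_right hv.2]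
      have h6 := hX'.ht_add (sub_mem hy hMv).2 hMv.2 (hX'.mul_hom0 (x := P) hx.2)
      rw [sub_add_cancel, h4, h5, add_zero] at h6
      exact h6
  obtain ⟨-, sur⟩ := (q1_iff hX' hM1).1 (h1 X hX M hM i k hi)
  obtain ⟨u, hu, hu'⟩ := sur (P * x) (triv_mul hX' hPch hx rfl)
  have hu0 : u = 0 := nondeg hX' hM1 (h1 X hX M hM) (h2 X hX M hM) i k hi u hu
    fun y hy => by rw [hu']; exact hall y hy
  rw [hu0, mul_zero] at hu'
  obtain ⟨inj, -⟩ := (bij_iff hX' hPch rfl).1 (hmix hi L hL)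
  exact hx0 (inj x hx hu'.symm)

theorem q2_of_mixed (h2 : ∀ X ∈ 𝒱, ∀ i k, X.dim + 1 = 2 * i + k → MixedQ2 X i k) :
    AllQ2 𝒱 := by
  intro X hX L hL i k hi x hx hx0 hprim
  have h3 := h2 X hX i k hi L (fun _ => L) hL (fun _ => hL) x hx hx0
  rw [prod_const, card_univ, Fintype.card_fin, ← pow_succ'] at h3
  exact h3 hprim

theorem main (h : IsClass 𝒱 vb) :
    List.TFAE [AllQ1 𝒱, ∀ X ∈ 𝒱, ∀ i k, X.dim + 1 = 2 * i + k → MixedQ1 X i k,
      ∀ X ∈ 𝒱, ∀ i e, ∀ c ∈ vb X e, X.dim + 1 = 2 * i + e → BundleQ1 X i e c] ∧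
    (AllQ2 𝒱 ↔ ∀ X ∈ 𝒱, ∀ i k, ∀ c ∈ vb X (k + 1), X.dim + 1 = 2 * i + k → BundleQ2 X i k c) ∧
    (AllQ2 𝒱 → ∀ X ∈ 𝒱, ∀ i k, X.dim + 1 = 2 * i + k → WeakMixedQ2 X i k) ∧
    (AllQ1 𝒱 → (AllQ2 𝒱 ↔ ∀ X ∈ 𝒱, ∀ i k, X.dim + 1 = 2 * i + k → MixedQ2 X i k)) :=
  ⟨q1_tfae h, q2_iff h, fun h2 _ hX _ _ hi => weak_mixed_q2 h h2 hX hi, fun h1 => ⟨fun h2 _ hX _ _ hi => mixed_q2 h h1 h2 hX hi, q2_of_mixed⟩⟩

end Pool.Agent.H844.Amp
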